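import Pool.Agent.H50.EE.GP
import Pool.Agent.H19.EE.GIN
import Pool.Agent.H33.EE.PW
import Pool.Agent.H86.EE5.TAY
import Pool.Agent.H86.EE5.ESY
import Pool.Agent.H33.EE.DETF
import Pool.Agent.H69.EE5.DETU
import Pool.Agent.H69.EE5.RL
import Pool.Agent.H60.EE.DUAL
import Pool.Agent.H49.EE5.STR
import Pool.Agent.H59.EE.MIN
import Pool.Agent.H64.EE.EXB
import Pool.Agent.H19.EE.SUMS
import Pool.Agent.H25.EE5.GAM
import Pool.Agent.H50.EI.PRF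
import Pool.Agent.H77.EI.ONE
import Pool.Agent.H65.EI.CNT
import Pool.Agent.H68.EI.KEYR
import Pool.Agent.H68.EI.CARD
import Pool.Agent.H60.EI.TAIL
import Pool.Agent.H69.EI.NUM
import Pool.Agent.H90.EI.SEPG
import Pool.Agent.H96.EI.HAR
import Pool.Agent.H39.EI.HAN
import Pool.Agent.H33.EI.MEAS
import Pool.Agent.H34.EI.RAT
import Pool.Agent.H61.EI.FRC
import Pool.Agent.H54.EI.GAU
import Pool.Agent.H61.EI.DDK
import Pool.Agent.H60.EI.DSK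
import Pool.Agent.H49.EI.KKK
import Pool.Agent.H54.EI.RPK
import Pool.Agent.H90.EI.FRK
import Pool.Agent.H77.EM.SML
import Pool.Agent.H34.EM.NFIN
import Pool.Agent.H39.EM.FIN
import Pool.Agent.H65.EM.ENT
import Pool.Agent.H65.EM.BND
import Pool.Agent.H3.EM.LEN
import Pool.Agent.H3.EM.DIFF
import Pool.Agent.H68.EM.DEGH
import Pool.Agent.H64.EM.UPP
import Pool.Agent.H95.EM.SPR
import Pool.Agent.H60.EM.SEP
import Pool.Agent.H49.EM.RANK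
import Pool.Agent.H54.EM.EVD
import Pool.Agent.H33.EM.FTF
import Pool.Agent.H64.EM.FOUR
import Pool.Agent.H60.EM.PAR
import Pool.Agent.H13.EM.MSR
import Pool.Agent.H55.EM.LIP
import Pool.Agent.H20.EM.HGT
import Pool.Agent.H69.EM.PAIR

/-! The rows are put together. -/

set_option autoImplicit false

namespace Pool.Agent.H51.EM

open Pool.Agent

/-- the criterion -/
theorem g_FIN : T_FIN :=
  H39.EM.FIN.pf_FIN (H50.EI.PRF.pf_PRF H50.EE.pf_GP)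
    (H77.EM.SML.pf_SML (H65.EI.CNT.pf_CNT H77.EI.ONE.pf_ONE))
    (H68.EI.KEYR.pf_KEYR H77.EI.ONE.pf_ONE (H33.EE.PW.pf_PW H19.EE.GIN.pf_GIN)
      H19.EE.GIN.pf_GIN) H34.EM.NFIN.pf_NFIN

theorem g_LEN : T_LEN := H3.EM.LEN.pf_LEN H68.EI.CARD.pf_CARD

theorem g_ENT : T_ENT := H65.EM.ENT.pf_ENT H86.EE5.TAY.pf_TAY

theorem g_BND : T_BND := H65.EM.BND.pf_BND H68.EI.CARD.pf_CARD

theorem g_DIFF : T_DIFF := H3.EM.DIFF.pf_DIFF g_ENT g_LEN H64.EE.pf_EXB H68.EI.CARD.pf_CARD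

theorem g_DEGH : T_DEGH :=
  H68.EM.DEGH.pf_DEGH g_LEN H64.EE.pf_EXB H68.EI.CARD.pf_CARD H19.EE.SUMS.pf_SUMS

theorem g_DETU : Pool.Agent.H25.EE.T_DETU :=
  H69.EE5.DETU.pf_DETU (H33.EE.DETF.pf_DETF H86.EE5.ESY.pf_ESY)

theorem g_UPP : T_UPP :=
  H64.EM.UPP.pf_UPP g_BND g_DIFF g_DETU H25.EE5.GAM.pf_GAM H68.EI.CARD.pf_CARD H54.EM.pf_EVD

theorem g_SEP : T_SEP := H60.EM.SEP.pf_SEP (H90.EI.SEPG.pf_SEPG H49.EE5.STR.pf_STR)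

theorem g_RANK : T_RANK :=
  H49.EM.RANK.pf_RANK g_BND g_DIFF H69.EE5.RL.pf_RL (H60.EE.pf_DUAL H69.EE5.RL.pf_RL)
    H95.EM.SPR.pf_SPR g_SEP H60.EI.TAIL.pf_TAIL H69.EI.NUM.pf_NUM H68.EI.CARD.pf_CARD

/-- good approximations at the levels `J, .., J ^ 4` do not exist -/
theorem g_FOUR : T_FOUR :=
  H64.EM.FOUR.pf_FOUR (H33.EM.FTF.pf_FTF g_RANK H59.EE.pf_MIN g_DEGH g_UPP H54.EM.pf_EVD) g_FIN

theorem g_MEAS : Pool.Agent.H51.EI.T_MEAS :=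
  H33.EI.MEAS.pf_MEAS H96.EI.HAR.pf_HAR H39.EI.HAN.pf_HAN

/-- the measure over a ring with the two properties -/
theorem g_MSR : T_MSR :=
  H13.EM.pf_MSR (H60.EM.PAR.pf_PAR g_MEAS H34.EI.RAT.pf_RAT H61.EI.FRC.pf_FRC) g_FOUR

theorem g_FRK : Pool.Agent.H51.EI.T_FRK :=
  H90.EI.FRK.pf_FRK H54.EI.GAU.pf_GAU H61.EI.DDK.pf_DDK H60.EI.DSK.pf_DSK H49.EI.KKK.pf_KKK

/-- the theorem for pairs of real numbers -/
theorem g_PAIR : T_PAIR :=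
  H69.EM.PAIR.pf_PAIR g_MSR H55.EM.pf_LIP H20.EM.HGT.pf_HGT g_MEAS H60.EI.DSK.pf_DSK
    H49.EI.KKK.pf_KKK H54.EI.RPK.pf_RPK g_FRK

end Pool.Agent.H51.EM
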