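import Pool.Agent.H51.EI.TargetsC

/-! Definitions for the quantitative form of the determinant theorem: `O` is a subring of `ℂ` all of
whose non-zero elements have absolute value at least one (and with good factorization
properties), `X0 ≠ 0`, and `x_i`, `y_j` are values at `X0` of rational functions over `O`. The
numbers `exp (x_i y_j)` are only approximated by `X0 ^ (δ i j) * u i j / v i j`. -/

set_option autoImplicit false

open Polynomial Finset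

namespace Pool.Agent.H51.EM

open Pool.Agent.H25.EE (Idx Ix mlt nd s0 s1 hn EX exo gt GG VJ thr phi bN bH)
open Pool.Agent.H51.EI (Disc toC ev plen rts vv ResP FR RP FTI phq thq KK KX)

/-- the fixed data: polynomials `x i`, `y j`, `A`, `B` whose values at `X0` give frequencies and
points -/
structure Par (O : Subring ℂ) (X0 : ℂ) where
  r : ℕ
  x : Fin 2 → (↥O)[X]
  y : Fin 2 → (↥O)[X]
  A : (↥O)[X]
  B : (↥O)[X]
  C : ℝ
  hr : 1 ≤ r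
  hC : 0 ≤ C
  hdx : ∀ i, (x i).natDegree ≤ r ^ 4
  hdy : ∀ i, (y i).natDegree ≤ r ^ 4
  hdA : A.natDegree ≤ r ^ 4
  hdB : B.natDegree ≤ r ^ 4
  hA : ev A X0 ≠ 0
  hB : ev B X0 ≠ 0
  hX : X0 ≠ 0
  hsx : ∀ m n : ℤ, (m ≠ 0 ∨ n ≠ 0) →
    Real.exp (-(C * (|(m : ℝ)| + |(n : ℝ)|) * Real.log (|(m : ℝ)| + |(n : ℝ)| + 1))) ≤
      ‖(m : ℂ) * ev (x 0) X0 + n * ev (x 1) X0‖
  hsy : ∀ m n : ℤ, (m ≠ 0 ∨ n ≠ 0) →
    Real.exp (-(C * (|(m : ℝ)| + |(n : ℝ)|) * Real.log (|(m : ℝ)| + |(n : ℝ)| + 1))) ≤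
      ‖(m : ℂ) * ev (y 0) X0 + n * ev (y 1) X0‖

variable {O : Subring ℂ} {X0 : ℂ}

/-- the scale of the multiplicities -/
noncomputable def qq (π : Par O X0) : ℕ := π.r ^ 4

/-- the numbers `u i j / v i j` are good enough at level `J`: their heights are at most a very
small power of `J` and they approximate `exp (x_i y_j / (A B)) * X0 ^ (-δ i j)` very well -/
structure Val (π : Par O X0) (J : ℕ) (u v : Fin 2 → Fin 2 → O) : Prop where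
  hu : ∀ i j, u i j ≠ 0
  hv : ∀ i j, v i j ≠ 0
  hu1 : ∀ i j, 1 ≤ ‖(u i j : ℂ)‖
  hv1 : ∀ i j, 1 ≤ ‖(v i j : ℂ)‖
  huM : ∀ i j, ‖(u i j : ℂ)‖ ^ (10 ^ 12 * qq π) ≤ J
  hvM : ∀ i j, ‖(v i j : ℂ)‖ ^ (10 ^ 12 * qq π) ≤ J
  herr : ∀ i j, ‖Complex.exp (ev (π.x i) X0 * ev (π.y j) X0 / (ev π.A X0 * ev π.B X0)) -
    X0 ^ (if i = j then 1 else 0 : ℕ) * ((u i j : ℂ) / (v i j : ℂ))‖ ≤
      Real.exp (-((J : ℝ) ^ 5))

noncomputable def t0 (π : Par O X0) : ℚ := s0 / (qq π : ℚ)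

noncomputable def t1 (π : Par O X0) : ℚ := s1 / (qq π : ℚ)

/-- frequencies -/
noncomputable def om (π : Par O X0) (a : ℤ × ℤ) : ℂ :=
  ((a.1 : ℂ) * ev (π.x 0) X0 + a.2 * ev (π.x 1) X0) / ev π.B X0

/-- points -/
noncomputable def ze (π : Par O X0) (a : ℤ × ℤ) : ℂ :=
  ((a.1 : ℂ) * ev (π.y 0) X0 + a.2 * ev (π.y 1) X0) / ev π.A X0

noncomputable def rho (π : Par O X0) : ℝ :=
  1 + (‖ev (π.x 0) X0‖ + ‖ev (π.x 1) X0‖) / ‖ev π.B X0‖ +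
    (‖ev (π.y 0) X0‖ + ‖ev (π.y 1) X0‖) / ‖ev π.A X0‖

noncomputable def Wp (π : Par O X0) (a : ℤ × ℤ) : (↥O)[X] :=
  C (a.1 : O) * π.x 0 + C (a.2 : O) * π.x 1

noncomputable def Zp (π : Par O X0) (a : ℤ × ℤ) : (↥O)[X] :=
  C (a.1 : O) * π.y 0 + C (a.2 : O) * π.y 1

noncomputable def PP (π : Par O X0) (a b : Idx) : (↥O)[X] :=
  ∑ l ∈ range (min a.2 b.2 + 1),
    C (((l.factorial * a.2.choose l * b.2.choose l : ℕ) : O)) * Zp π b.1 ^ (a.2 - l) *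
      Wp π a.1 ^ (b.2 - l) * (π.A * π.B) ^ l

noncomputable def cst (u v : Fin 2 → Fin 2 → O) (J : ℕ) (a b : Idx) : O :=
  ∏ i : Fin 2, ∏ j : Fin 2, (u i j ^ ((J : ℤ) ^ 2 + exo a b i j).toNat *
    v i j ^ ((J : ℤ) ^ 2 - exo a b i j).toNat)

/-- the entries -/
noncomputable def mm (π : Par O X0) (u v : Fin 2 → Fin 2 → O) (J : ℕ) (a b : Idx) : (↥O)[X] :=
  C (cst u v J a b) * PP π a b * X ^ (EX a b)

noncomputable def ra (π : Par O X0) (a : Idx) : ℂ :=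
  ev π.A X0 ^ a.2 * X0 ^ (hn a.1).toNat

noncomputable def cb (π : Par O X0) (u v : Fin 2 → Fin 2 → O) (J : ℕ) (b : Idx) : ℂ :=
  ev π.B X0 ^ b.2 * X0 ^ (hn b.1).toNat *
    ∏ i : Fin 2, ∏ j : Fin 2, ((u i j : ℂ) * (v i j : ℂ)) ^ (J ^ 2)

noncomputable def al (π : Par O X0) (a : Idx) (n : ℕ) : ℂ :=
  ra π a * (n.descFactorial a.2 : ℂ) * om π a.1 ^ (n - a.2)

noncomputable def be (π : Par O X0) (u v : Fin 2 → Fin 2 → O) (J : ℕ) (b : Idx) (n : ℕ) : ℂ :=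
  cb π u v J b * (n.descFactorial b.2 : ℂ) * ze π b.1 ^ (n - b.2) / (n.factorial : ℂ)

/-- the minors -/
noncomputable def DD (π : Par O X0) (u v : Fin 2 → Fin 2 → O) (J : ℕ)
    (g : {a // a ∈ Ix (t0 π) J} → {b // b ∈ Ix (t1 π) J}) : (↥O)[X] :=
  Matrix.det (Matrix.of fun a a' : {a // a ∈ Ix (t0 π) J} => mm π u v J a.1 (g a').1)

end Pool.Agent.H51.EM
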