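import Pool.Agent.H92.EM.TC
import Pool.Agent.H68.EQ.PRJ

/-!
Row MPR of the board `emd_modules`: the relative lower Jacobian on paths without visits.
-/

namespace Pool.Agent.H51.EM

open Pool.Agent.H92.EQ Pool.Agent.H92.EM
open Pool.Agent.H68.EQ
open scoped BigOperators ComplexConjugate
open MeasureTheory

theorem pf_MPR (hKL : T_MKL) (hKB : T_MKB) (hD11 : T_D11) : T_MPR := by
  intro m k d M F P hm hk hd hF hP
  obtain ⟨cK, hcK0, hcK1, hcK⟩ := hKL m k d F hm hk hd hF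
  obtain ⟨-, hhom, -⟩ := hKB m k d F hm hk hd hF
  obtain ⟨R, hR⟩ := hP.dvd
  obtain ⟨c1, hc1, hlow⟩ := nrm_lower (by omega : 1 ≤ d) hF.isH
  obtain ⟨B, hB, hRB⟩ := eval_bound R
  have hD := hD11 (k + 1) d d F F (by omega) (by omega) hF.isH hF.isH
  have hsph : ∀ x : Fin (k + 1) → ℂ, nrm x = 1 →
      c1 ^ M / B * nv P M (ev F x) ≤ nv (lowP m F) ((k + 1 - m) * (d - 1)) x := by
    intro x hx
    unfold nv
    rw [hx, one_pow, div_one, ← eval_bind, hR, map_mul, norm_mul]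
    have h1 := hlow x hx
    have h2 : 0 < nrm (ev F x) := hc1.trans_le h1
    have h3 : c1 ^ M ≤ nrm (ev F x) ^ M := pow_le_pow_left₀ hc1.le h1 M
    have h4 : ‖MvPolynomial.eval x R‖ ≤ B := hRB x hx
    rw [div_mul_div_comm, div_le_iff₀ (by positivity)]
    have h5 : 0 ≤ ‖MvPolynomial.eval x (lowP m F)‖ := norm_nonneg _
    calc c1 ^ M * (‖MvPolynomial.eval x (lowP m F)‖ * ‖MvPolynomial.eval x R‖)
        ≤ nrm (ev F x) ^ M * (‖MvPolynomial.eval x (lowP m F)‖ * B) :=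
          mul_le_mul h3 (mul_le_mul_of_nonneg_left h4 h5) (by positivity) (by positivity)
      _ = ‖MvPolynomial.eval x (lowP m F)‖ * (B * nrm (ev F x) ^ M) := by ring
  have hall : ∀ x : Fin (k + 1) → ℂ, x ≠ 0 →
      c1 ^ M / B * nv P M (ev F x) ≤ nv (lowP m F) ((k + 1 - m) * (d - 1)) x := by
    intro x hx
    have hx0 : 0 < nrm x := Pool.Agent.H72.EQ.nrm_ps x hx
    set l : ℂ := (((nrm x)⁻¹ : ℝ) : ℂ) with hl
    have hl0 : l ≠ 0 := by
      rw [hl]
      exact_mod_cast (inv_pos.2 hx0).ne'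
    have hl1 : 0 < ‖l‖ := norm_pos_iff.2 hl0
    have hln : ‖l‖ = (nrm x)⁻¹ := by
      rw [hl, Complex.norm_real, Real.norm_of_nonneg (inv_pos.2 hx0).le]
    have h1 : nrm (l • x) = 1 := by
      rw [nrm_smul', hln, inv_mul_cancel₀ hx0.ne']
    have h2 := hsph (l • x) h1
    have h3 : nv P M (ev F (l • x)) = nv P M (ev F x) := by
      unfold nv
      rw [hD.2.1, Pool.Agent.H88.EQ.eval_smul_hom hP.hom, nrm_smul', norm_mul, norm_pow, norm_pow,
        mul_pow]
      rw [mul_div_mul_left]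
      positivity
    have h4 : nv (lowP m F) ((k + 1 - m) * (d - 1)) (l • x) = nv (lowP m F) ((k + 1 - m) * (d - 1)) x := by
      unfold nv
      rw [Pool.Agent.H88.EQ.eval_smul_hom hhom, nrm_smul', norm_mul, norm_pow, mul_pow,
        mul_div_mul_left]
      positivity
    rw [h3, h4] at h2
    exact h2
  set c2 := min 1 (c1 ^ M / B) with hc2
  have hc20 : 0 < c2 := lt_min one_pos (by positivity)
  have hc21 : c2 ≤ 1 := min_le_left _ _
  have hnv : ∀ z : Fin (k + 1) → ℂ, 0 ≤ nv P M z := fun z =>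
    div_nonneg (norm_nonneg _) (pow_nonneg (Pool.Agent.H72.EQ.nrm_nn z) M)
  have hall2 : ∀ x : Fin (k + 1) → ℂ, x ≠ 0 →
      c2 * nv P M (ev F x) ≤ nv (lowP m F) ((k + 1 - m) * (d - 1)) x := fun x hx =>
    (mul_le_mul_of_nonneg_right (min_le_right _ _) (hnv _)).trans (hall x hx)
  refine ⟨cK * c2, mul_pos hcK0 hc20, mul_le_one₀ hcK1 hc20.le hc21, fun x hx => ?_, ?_⟩
  · refine le_trans ?_ (hall2 x hx)
    exact mul_le_mul_of_nonneg_right (mul_le_of_le_one_left hc20.le hcK1) (hnv _)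
  · intro j r x hx hr0 hr1 hi
    refine le_trans ?_ (hcK j x hx)
    have h1 : (c2 * r) ^ j ≤ ∏ i ∈ Finset.range j,
        nv (lowP m F) ((k + 1 - m) * (d - 1)) (ev (iter F i) x) := by
      rw [← Finset.card_range j, ← Finset.prod_const, Finset.card_range]
      refine Finset.prod_le_prod (fun i _ => by positivity) fun i hi2 => ?_
      have h2 := hall2 (ev (iter F i) x) (ev_iter_ne hF.isH hx i)
      rw [← ev_iter_succ] at h2
      refine le_trans ?_ h2
      exact mul_le_mul_of_nonneg_left (hi (i + 1) (by omega) (by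
        have := Finset.mem_range.1 hi2
        omega)) hc20.le
    calc (cK * c2 * r) ^ j = cK ^ j * (c2 * r) ^ j := by rw [mul_assoc, mul_pow]
      _ ≤ _ := mul_le_mul_of_nonneg_left h1 (pow_nonneg hcK0.le j)

end Pool.Agent.H51.EM
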