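import Pool.Agent.H51.EM.Defs

/-! Targets of the board em_modules: the quantitative form of the determinant theorem. -/

set_option autoImplicit false

open Polynomial Finset

namespace Pool.Agent.H51.EM

open Pool.Agent.H25.EE (Idx Ix mlt nd s0 s1 hn EX exo gt GG VJ thr phi bN bH)
open Pool.Agent.H51.EI (Disc toC ev plen rts vv ResP FR RP FTI phq thq KK KX)

/-! ### The criterion -/

/-- the zeros not very near `X0` do not matter -/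
def T_SML : Prop := ∀ (O : Subring ℂ) (X0 : ℂ) (c ε : ℝ) (i0 Jt : ℕ), Disc O → FR O → 0 < c →
  0 < ε → ε ≤ 1 / 1000000 → 1 ≤ i0 → (∀ j : ℕ, 2 ^ i0 ≤ j → j ≤ Jt → FTI O X0 c ε j) →
  ∀ (J m : ℕ) (D : (↥O)[X]), 2 ≤ J → J ≤ Jt → 2 ^ m ≤ J → ev D X0 ≠ 0 →
  (D.natDegree : ℝ) ≤ c * bN J → plen D ≤ Real.exp (bH J / c) →
  (((rts D).filter fun β => vv X0 β < thr (2 ^ m)).map (vv X0)).sum ≤
    c * thr (2 ^ i0) * (J : ℝ) ^ 6 + 3 / 20000 * ((2 : ℝ) ^ m) ^ 2 * (J : ℝ) ^ 6 * Real.log J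

/-- asymptotic inequality used at the end, the constant `K` may be large -/
def T_NFIN : Prop := ∀ c : ℝ, 0 < c → ∃ Jb : ℕ, ∀ J ≥ Jb, ∀ (K : ℝ) (N J1 : ℕ),
  K ≤ 1 / 10 ^ 9 * (J : ℝ) ^ 2 → (N : ℝ) ≤ c * bN J → (100 : ℝ) * J1 ≤ J →
  101 / 100 * (2 * bN J * bH J) <
    2 / 1125 * (J : ℝ) ^ 4 *
      (49 / 100 * (phi (1 / 10 ^ 20) J (93 / 245 * VJ J) - N * Real.log (8 * ((N : ℝ) + 1)) -
          (K * (J : ℝ) ^ 6 + 3 / 20000 * (J1 : ℝ) ^ 2 * (J : ℝ) ^ 6 * Real.log J)) +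
        31 / 100 * (phi (1 / 10 ^ 20) J (147 / 155 * VJ J) -
          N * Real.log (8 * ((N : ℝ) + 1)) -
          (K * (J : ℝ) ^ 6 + 3 / 20000 * (J1 : ℝ) ^ 2 * (J : ℝ) ^ 6 * Real.log J)))

/-- the criterion with finitely many levels, uniform in the ring and the point -/
def T_FIN : Prop := ∀ c : ℝ, 0 < c → ∃ Jb : ℕ, ∀ (O : Subring ℂ) (X0 : ℂ), Disc O → FR O →
  ∀ J0 ≥ Jb, (∀ j : ℕ, J0 ≤ j → j ≤ J0 ^ 4 → FTI O X0 c (1 / 10 ^ 20) j) → False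

/-! ### The family -/

/-- the entries at `X0`, up to a factor near `1` -/
def T_ENT : Prop := ∀ (O : Subring ℂ) (X0 : ℂ) (π : Par O X0), ∃ J0 : ℕ, ∀ J ≥ J0,
  ∀ u v : Fin 2 → Fin 2 → O, Val π J u v → ∀ a ∈ Ix (t0 π) J, ∀ b ∈ Ix (t1 π) J,
  ∃ ω : ℂ, ‖ω - 1‖ ≤ Real.exp (-((J : ℝ) ^ 4 * Real.log J)) ∧
    HasSum (fun n => al π a n * be π u v J b n) (ev (mm π u v J a b) X0 * ω)

/-- size of the factors -/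
def T_BND : Prop := ∀ (O : Subring ℂ) (X0 : ℂ) (π : Par O X0), ∃ C : ℝ, 0 ≤ C ∧
  ∀ J : ℕ, 3 ≤ J → ∀ u v : Fin 2 → Fin 2 → O, Val π J u v →
  (∀ a ∈ Ix (t0 π) J, Real.exp (-(C * (J : ℝ) ^ 2 * Real.log J)) ≤ ‖ra π a‖ ∧ ∀ n : ℕ, ‖al π a n‖ ≤
    Real.exp (C * (J : ℝ) ^ 2 * Real.log J) * ((n : ℝ) + 1) ^ (J ^ 2) * (rho π * J) ^ n) ∧
  (∀ b ∈ Ix (t1 π) J, Real.exp (-(C * (J : ℝ) ^ 2 * Real.log J)) ≤ ‖cb π u v J b‖ ∧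
    ∀ n : ℕ, ‖be π u v J b n‖ ≤
    Real.exp (C * (J : ℝ) ^ 2 * Real.log J) * ((n : ℝ) + 1) ^ (J ^ 2) * (rho π * J) ^ n /
      n.factorial)

/-- degree and length of the entries -/
def T_LEN : Prop := ∀ (O : Subring ℂ) (X0 : ℂ) (π : Par O X0), ∃ C : ℝ, 0 ≤ C ∧
  ∀ J : ℕ, 2 ≤ J → ∀ u v : Fin 2 → Fin 2 → O, Val π J u v →
  ∀ a ∈ Ix (t0 π) J, ∀ b ∈ Ix (t1 π) J,
  (mm π u v J a b).natDegree ≤ qq π * (a.2 + b.2) + EX a b ∧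
  plen (mm π u v J a b) ≤ Real.exp (((a.2 : ℝ) + b.2) * Real.log J + C * (J : ℝ) ^ 2 +
    1 / (10 ^ 11 * qq π) * (J : ℝ) ^ 2 * Real.log J)

/-- the entries near `X0` -/
def T_DIFF : Prop := ∀ (O : Subring ℂ) (X0 : ℂ) (π : Par O X0), ∃ C : ℝ, 0 ≤ C ∧ ∃ J0 : ℕ,
  ∀ J ≥ J0, ∀ u v : Fin 2 → Fin 2 → O, Val π J u v →
  ∀ a ∈ Ix (t0 π) J, ∀ b ∈ Ix (t1 π) J, ∃ S : ℂ,
  HasSum (fun n => al π a n * be π u v J b n) S ∧ ∀ x : ℂ, ‖x - X0‖ ≤ 1 →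
  ‖ev (mm π u v J a b) x - S‖ ≤
    (‖x - X0‖ + Real.exp (-((J : ℝ) ^ 4 * Real.log J))) *
      Real.exp (C * (J : ℝ) ^ 2 * Real.log J)

/-- degree and length of the minors -/
def T_DEGH : Prop := ∀ (O : Subring ℂ) (X0 : ℂ) (π : Par O X0), ∃ J0 : ℕ, ∀ J ≥ J0,
  ∀ u v : Fin 2 → Fin 2 → O, Val π J u v →
  ∀ g : {a // a ∈ Ix (t0 π) J} → {b // b ∈ Ix (t1 π) J}, Function.Injective g →
  ((DD π u v J g).natDegree : ℝ) ≤ bN J / (qq π : ℝ) ∧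
  plen (DD π u v J g) ≤
    Real.exp (1139 / 1000000000 * (J : ℝ) ^ 6 * Real.log J / (qq π : ℝ) ^ 2)

/-- size of the minors near `X0` -/
def T_UPP : Prop := ∀ (O : Subring ℂ) (X0 : ℂ) (π : Par O X0) (ε : ℝ), 0 < ε →
  ∃ J0 : ℕ, ∀ J ≥ J0, ∀ u v : Fin 2 → Fin 2 → O, Val π J u v →
  ∀ g : {a // a ∈ Ix (t0 π) J} → {b // b ∈ Ix (t1 π) J}, ∀ s : ℝ, 0 ≤ s → ∀ x : ℂ,
  ‖x - X0‖ ≤ Real.exp (-s) → ‖ev (DD π u v J g) x‖ ≤ Real.exp (-(phq (qq π) ε J s))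

/-- the nodes are separated -/
def T_SPR : Prop := ∀ (O : Subring ℂ) (X0 : ℂ) (π : Par O X0), ∃ C : ℝ, 0 ≤ C ∧
  ∀ J : ℕ, 2 ≤ J → ∀ x ∈ nd J, ∀ y ∈ nd J, x ≠ y →
  Real.exp (-(C * J * Real.log J)) ≤ ‖om π x - om π y‖ ∧
  Real.exp (-(C * J * Real.log J)) ≤ ‖ze π x - ze π y‖

/-- product of the differences -/
def T_SEP : Prop := ∀ (O : Subring ℂ) (X0 : ℂ) (π : Par O X0) (σ : ℚ),
  (σ = t0 π ∨ σ = t1 π) → ∀ ε : ℝ, 0 < ε → ∃ J0 : ℕ, ∀ J ≥ J0, ∀ x ∈ nd J,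
  Real.exp ((1 - ε) * (Ix σ J).card * Real.log J) ≤
    ∏ y ∈ (nd J).erase x, ‖om π x - om π y‖ ^ mlt σ J y ∧
  Real.exp ((1 - ε) * (Ix σ J).card * Real.log J) ≤
    ∏ y ∈ (nd J).erase x, ‖ze π x - ze π y‖ ^ mlt σ J y

/-- the rows are independent at a point very near `X0` -/
def T_RANK : Prop := ∀ (O : Subring ℂ) (X0 : ℂ) (π : Par O X0), ∃ J0 : ℕ, ∀ J ≥ J0,
  ∀ u v : Fin 2 → Fin 2 → O, Val π J u v → ∀ α : ℂ,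
  ‖α - X0‖ ≤ Real.exp (-(thq (qq π) J)) → ∀ c : Idx → ℂ,
  (∀ b ∈ Ix (t1 π) J, ∑ a ∈ Ix (t0 π) J, c a * ev (mm π u v J a b) α = 0) →
  ∀ a ∈ Ix (t0 π) J, c a = 0

/-- evaluation of the minors -/
def T_EVD : Prop := ∀ (O : Subring ℂ) (X0 : ℂ) (π : Par O X0) (u v : Fin 2 → Fin 2 → O) (J : ℕ)
  (g : {a // a ∈ Ix (t0 π) J} → {b // b ∈ Ix (t1 π) J}) (x : ℂ),
  ev (DD π u v J g) x =
    Matrix.det (Matrix.of fun a a' : {a // a ∈ Ix (t0 π) J} => ev (mm π u v J a.1 (g a').1) x)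

/-- the family, level `J = r * J1` -/
def T_FTF : Prop := ∀ (O : Subring ℂ) (X0 : ℂ) (π : Par O X0) (ε : ℝ), 0 < ε → ∃ J0 : ℕ,
  ∀ J ≥ J0, ∀ u v : Fin 2 → Fin 2 → O, Val π (π.r * J) u v → FTI O X0 ((π.r : ℝ) ^ 2) ε J

/-- approximations which are good enough at the levels `J, .., J ^ 4` do not exist -/
def T_FOUR : Prop := ∀ (O : Subring ℂ) (X0 : ℂ), Disc O → FR O → ∀ π : Par O X0, ∃ J0 : ℕ,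
  2 ≤ J0 ∧ ∀ J ≥ J0, ∀ u v : Fin 2 → Fin 2 → O,
  (∀ j : ℕ, J ≤ j → j ≤ J ^ 4 → Val π (π.r * j) u v) → False

/-! ### The theorem -/

/-- construction of the fixed data -/
def T_PAR : Prop := ∀ (O : Subring ℂ) (t : ℂ) (x y : Fin 2 → ℂ), Disc O → RP O →
  t ∈ KK O → t ≠ 0 → (∀ i, x i ∈ KX O (Complex.exp t)) → (∀ i, y i ∈ KX O (Complex.exp t)) →
  (∀ m n : ℤ, (m ≠ 0 ∨ n ≠ 0) → (m : ℂ) * x 0 + n * x 1 ≠ 0) →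
  (∀ m n : ℤ, (m ≠ 0 ∨ n ≠ 0) → (m : ℂ) * y 0 + n * y 1 ≠ 0) →
  ∃ π : Par O (Complex.exp t), ∀ i j,
    ev (π.x i) (Complex.exp t) * ev (π.y j) (Complex.exp t) /
      (ev π.A (Complex.exp t) * ev π.B (Complex.exp t)) = x i * y j

/-- the measure over a ring with the two properties -/
def T_MSR : Prop := ∀ (O : Subring ℂ) (t : ℂ) (x y : Fin 2 → ℂ), Disc O → FR O → RP O →
  t ∈ KK O → t ≠ 0 → (∀ i, x i ∈ KX O (Complex.exp t)) → (∀ i, y i ∈ KX O (Complex.exp t)) →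
  (∀ m n : ℤ, (m ≠ 0 ∨ n ≠ 0) → (m : ℂ) * x 0 + n * x 1 ≠ 0) →
  (∀ m n : ℤ, (m ≠ 0 ∨ n ≠ 0) → (m : ℂ) * y 0 + n * y 1 ≠ 0) →
  ∃ C : ℝ, ∀ H : ℝ, 2 ≤ H → ∀ u v : Fin 2 → Fin 2 → O,
    (∀ i j, v i j ≠ 0 ∧ ‖(u i j : ℂ)‖ ≤ H ∧ ‖(v i j : ℂ)‖ ≤ H) →
    ∃ i j, Real.exp (-(H ^ C)) ≤
      ‖Complex.exp (x i * y j - (if i = j then t else 0)) - (u i j : ℂ) / (v i j : ℂ)‖

/-- monomials near a point with positive coordinates -/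
def T_LIP : Prop := ∀ (m n : ℤ) (a b : ℝ), 0 < a → 0 < b → ∃ K δ : ℝ, 0 < K ∧ 0 < δ ∧
  ∀ Y Z : ℝ, |a - Y| ≤ δ → |b - Z| ≤ δ → 0 < Y ∧ 0 < Z ∧
    |a ^ m * b ^ n - Y ^ m * Z ^ n| ≤ K * (|a - Y| + |b - Z|)

/-- heights of monomials -/
def T_HGT : Prop := ∀ (m n : ℤ) (Y Z : ℚ) (H : ℝ), 0 < Y → 0 < Z → (Y.num : ℝ) ≤ H →
  (Y.den : ℝ) ≤ H → (Z.num : ℝ) ≤ H → (Z.den : ℝ) ≤ H →
  ∃ p q : ℕ, 0 < q ∧ Y ^ m * Z ^ n = (p : ℚ) / (q : ℚ) ∧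
    (p : ℝ) ≤ H ^ (m.natAbs + n.natAbs) ∧ (q : ℝ) ≤ H ^ (m.natAbs + n.natAbs)

/-- the final statement for pairs of real numbers -/
def T_PAIR : Prop := ∀ (r : ℚ) (u v x y : ℤ) (E b : ℝ), r ≠ 0 → (x ≠ 0 ∨ y ≠ 0) →
  E = r * Real.exp 1 → b * (x * E + y) = 1 + u * E + v * E ^ 2 →
  (∀ p q : ℚ, b ≠ p + q * E) →
  ∃ C : ℝ, ∀ H : ℝ, 2 ≤ H → ∀ Y Z : ℚ, |(Y.num : ℝ)| ≤ H → (Y.den : ℝ) ≤ H →
    |(Z.num : ℝ)| ≤ H → (Z.den : ℝ) ≤ H →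
    Real.exp (-(H ^ C)) ≤ |Real.exp E - Y| + |Real.exp b - Z|

end Pool.Agent.H51.EM
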